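import Pool.Agent.Lib.MP_23ded2_an.Defs
import Pool.Agent.Lib.MP_23ded2_an.Proof

set_option autoImplicit false

namespace Pool.Agent.Results.MP_23ded2_an.Noncompact

open Pool.Agent.Lib.MP_23ded2_an

/-- The Kalton-Peck space `Z₂` has a Banach model, and on every Banach model `Z` of it there is an
exact sequence `0 → ℓ₂ → Z → ℓ₂ → 0` having a compatible pair `(T, U)` with `T - U` not
compact; moreover no identification of the two copies of `ℓ₂` repairs this: for every isomorphism
`β` of `ℓ₂` there is a compatible pair `(T, U)` with `T - β⁻¹ U β` not compact. -/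
theorem result :
    (∃ (Z : Type) (_ : NormedAddCommGroup Z) (_ : NormedSpace ℝ Z)
      (ι : (C00 × C00) →ₗ[ℝ] Z), IsKaltonPeck Z ι) ∧
    ∀ (Z : Type) [NormedAddCommGroup Z] [NormedSpace ℝ Z] (ι : (C00 × C00) →ₗ[ℝ] Z),
      IsKaltonPeck Z ι → HasBadSequence Z := by
  refine ⟨⟨ZZ, inferInstance, inferInstance, iotaZ, isKaltonPeck_ZZ⟩, ?_⟩
  intro Z _ _ ι h
  obtain ⟨j, q, hex, h1, h2, _⟩ := main_theorem h
  exact ⟨j, q, hex, h1, h2⟩

end Pool.Agent.Results.MP_23ded2_an.Noncompact
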